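import Pool.Agent.Q35.ST.Stm

/-!
# Conics through rational points (project ST, job RI)
-/

set_option autoImplicit false

namespace Pool.Agent.Q153.ST

open MvPolynomial
open Pool.Agent.Q35.ST
open Pool.Agent.TH178.MZ (RationallyIntegrable valueAt valueAt_apply)

section

variable {σ : Type} {k : Type} [Field k]

/-- chain rule along a line -/
theorem deriv_line [Fintype σ] [DecidableEq σ] (y a : σ → k) (f : MvPolynomial σ k) :
    Polynomial.derivative (aeval (fun s => Polynomial.C (y s) + Polynomial.X * Polynomial.C (a s)) f) =
      ∑ s, Polynomial.C (a s) *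
        aeval (fun s => Polynomial.C (y s) + Polynomial.X * Polynomial.C (a s)) (pderiv s f) := by
  induction f using MvPolynomial.induction_on with
  | C c =>
    simp only [pderiv_C, map_zero, mul_zero, Finset.sum_const_zero, aeval_C]
    exact Polynomial.derivative_C
  | add p q hp hq =>
    simp only [map_add, Polynomial.derivative_add, hp, hq, mul_add, Finset.sum_add_distrib]
  | mul_X p j hp =>
    have h1 : ∀ s, Polynomial.C (a s) *
        aeval (fun s => Polynomial.C (y s) + Polynomial.X * Polynomial.C (a s))
          (pderiv s (p * X j)) =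
        (if s = j then Polynomial.C (a j) *
          aeval (fun s => Polynomial.C (y s) + Polynomial.X * Polynomial.C (a s)) p else 0) +
        (Polynomial.C (y j) + Polynomial.X * Polynomial.C (a j)) * (Polynomial.C (a s) *
          aeval (fun s => Polynomial.C (y s) + Polynomial.X * Polynomial.C (a s))
            (pderiv s p)) := by
      intro s
      rw [Derivation.leibniz, pderiv_X, smul_eq_mul, smul_eq_mul, map_add, map_mul, map_mul,
        aeval_X]
      by_cases h : s = j
      · subst h
        rw [if_pos rfl, Pi.single_eq_same, map_one]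
        ring
      · rw [if_neg h, Pi.single_eq_of_ne (Ne.symm h), map_zero]
        ring
    simp only [h1]
    rw [Finset.sum_add_distrib, ← Finset.mul_sum, ← hp, Finset.sum_ite_eq' Finset.univ j,
      if_pos (Finset.mem_univ j), map_mul, aeval_X, Polynomial.derivative_mul]
    simp only [Polynomial.derivative_add, Polynomial.derivative_C, Polynomial.derivative_mul,
      Polynomial.derivative_X]
    ring

theorem eval_line (y a : σ → k) (f : MvPolynomial σ k) (t : k) :
    (aeval (fun s => Polynomial.C (y s) + Polynomial.X * Polynomial.C (a s)) f).eval t =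
      eval (fun s => y s + t * a s) f := by
  induction f using MvPolynomial.induction_on with
  | C c =>
    rw [aeval_C, eval_C]
    exact Polynomial.eval_C
  | add p q hp hq => rw [map_add, Polynomial.eval_add, hp, hq, map_add]
  | mul_X p j hp =>
    rw [map_mul, aeval_X, Polynomial.eval_mul, hp, map_mul, eval_X, Polynomial.eval_add,
      Polynomial.eval_C, Polynomial.eval_mul, Polynomial.eval_X, Polynomial.eval_C]

/-- the quadratic form of the second derivatives -/
noncomputable def Qd [Fintype σ] (f : MvPolynomial σ k) (y a : σ → k) : k :=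
  (∑ s, ∑ r, a s * a r * eval y (pderiv r (pderiv s f))) / 2

/-- the linear form of the first derivatives -/
noncomputable def Ld [Fintype σ] (f : MvPolynomial σ k) (y a : σ → k) : k :=
  ∑ s, a s * eval y (pderiv s f)

theorem taylor [CharZero k] [Fintype σ] [DecidableEq σ] (y a : σ → k) (f : MvPolynomial σ k)
    (hdeg : (aeval (fun s => Polynomial.C (y s) + Polynomial.X * Polynomial.C (a s)) f :
      Polynomial k).natDegree ≤ 2) :
    eval (fun s => y s + a s) f = eval y f + Ld f y a + Qd f y a := by
  set p : Polynomial k :=
    aeval (fun s => Polynomial.C (y s) + Polynomial.X * Polynomial.C (a s)) f with hp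
  have h0 : p.coeff 0 = eval y f := by
    rw [Polynomial.coeff_zero_eq_eval_zero, hp, eval_line]
    simp
  have hd1 : Polynomial.derivative p = ∑ s, Polynomial.C (a s) *
      aeval (fun s => Polynomial.C (y s) + Polynomial.X * Polynomial.C (a s)) (pderiv s f) :=
    deriv_line y a f
  have h1 : p.coeff 1 = Ld f y a := by
    have h2 := congrArg (Polynomial.eval 0) hd1
    rw [← Polynomial.coeff_zero_eq_eval_zero, Polynomial.coeff_derivative,
      Polynomial.eval_finset_sum] at h2
    simp only [Polynomial.eval_mul, Polynomial.eval_C, eval_line, zero_mul, add_zero, zero_add,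
      Nat.cast_zero, mul_one] at h2
    exact h2
  have h2 : p.coeff 2 = Qd f y a := by
    have h3 : Polynomial.derivative (Polynomial.derivative p) = ∑ s, ∑ r, Polynomial.C (a s) *
        (Polynomial.C (a r) *
      aeval (fun s => Polynomial.C (y s) + Polynomial.X * Polynomial.C (a s))
        (pderiv r (pderiv s f))) := by
      rw [hd1, Polynomial.derivative_sum]
      refine Finset.sum_congr rfl fun s _ => ?_
      rw [Polynomial.derivative_mul, Polynomial.derivative_C, zero_mul, zero_add, deriv_line,
        Finset.mul_sum]
    have h4 := congrArg (Polynomial.eval 0) h3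
    rw [← Polynomial.coeff_zero_eq_eval_zero, Polynomial.coeff_derivative,
      Polynomial.coeff_derivative] at h4
    simp only [Polynomial.eval_finset_sum, Polynomial.eval_mul, Polynomial.eval_C, eval_line,
      zero_mul, add_zero] at h4
    rw [Qd, eq_div_iff two_ne_zero]
    rw [show (0 + 1 + 1 : ℕ) = 2 by norm_num] at h4
    push_cast at h4
    rw [zero_add, mul_one] at h4
    have h5 : (1 : k) + 1 = 2 := by norm_num
    rw [h5] at h4
    rw [h4]
    exact Finset.sum_congr rfl fun s _ => Finset.sum_congr rfl fun r _ => by ring
  have h3 : eval (fun s => y s + a s) f = p.eval 1 := by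
    rw [hp, eval_line]
    simp
  rw [h3, Polynomial.eval_eq_sum_range' (Nat.lt_succ_of_le hdeg), Finset.sum_range_succ,
    Finset.sum_range_succ, Finset.sum_range_one, h0, h1, h2]
  ring

theorem Ld_add [Fintype σ] (f : MvPolynomial σ k) (y a b : σ → k) (c t : k) :
    Ld f y (fun s => c * (a s + t * b s)) = c * (Ld f y a + t * Ld f y b) := by
  simp only [Ld, Finset.mul_sum, ← Finset.sum_add_distrib]
  exact Finset.sum_congr rfl fun s _ => by ring

/-- the mixed part of the quadratic form -/
noncomputable def Md [Fintype σ] (f : MvPolynomial σ k) (y a b : σ → k) : k :=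
  (∑ s, ∑ r, (a s * b r + b s * a r) * eval y (pderiv r (pderiv s f))) / 2

theorem Qd_add [Fintype σ] (f : MvPolynomial σ k) (y a b : σ → k) (c t : k) :
    Qd f y (fun s => c * (a s + t * b s)) =
      c ^ 2 * (Qd f y a + t * Md f y a b + t ^ 2 * Qd f y b) := by
  simp only [Qd, Md, ← mul_div_assoc, ← add_div, Finset.mul_sum, ← Finset.sum_add_distrib]
  congr 1
  exact Finset.sum_congr rfl fun s _ => Finset.sum_congr rfl fun r _ => by ring

end

section

variable {κ : Type} {n : κ → ℕ} {k : Type} [Field k]

/-- a vector in the direction of the factor `l` -/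
def inl [DecidableEq κ] (l : κ) (a : Pc n → k) : Prop := ∀ s : Pc n, s.1 ≠ l → a s = 0

theorem deg_line [Fintype κ] [DecidableEq κ] (F : MvPolynomial (Pc n) k) (d : κ → ℕ)
    (hF : MH Set.univ d F) (l : κ) (hl : d l ≤ 2) (y a : Pc n → k) (ha : inl l a) :
    (aeval (fun s => Polynomial.C (y s) + Polynomial.X * Polynomial.C (a s)) F :
      Polynomial k).natDegree ≤ 2 := by
  classical
  rw [aeval_def, eval₂_eq']
  refine Polynomial.natDegree_sum_le_of_forall_le _ _ fun m hm => ?_
  refine (Polynomial.natDegree_C_mul_le _ _).trans ?_
  refine (Polynomial.natDegree_prod_le _ _).trans ?_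
  have h1 : ∀ s : Pc n, ((Polynomial.C (y s) + Polynomial.X * Polynomial.C (a s)) ^ m s :
      Polynomial k).natDegree ≤ if s.1 = l then m s else 0 := by
    intro s
    refine (Polynomial.natDegree_pow_le).trans ?_
    split_ifs with h
    · have h2 : (Polynomial.C (y s) + Polynomial.X * Polynomial.C (a s) :
          Polynomial k).natDegree ≤ 1 := by
        refine (Polynomial.natDegree_add_le _ _).trans ?_
        rw [Polynomial.natDegree_C]
        refine max_le (Nat.zero_le _) ?_
        refine (Polynomial.natDegree_mul_C_le _ _).trans ?_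
        exact Polynomial.natDegree_X_le
      calc m s * _ ≤ m s * 1 := Nat.mul_le_mul_left _ h2
        _ = m s := mul_one _
    · rw [ha s h, Polynomial.C_0, mul_zero, add_zero, Polynomial.natDegree_C, mul_zero]
  refine (Finset.sum_le_sum fun s _ => h1 s).trans ?_
  rw [Fintype.sum_sigma]
  rw [Finset.sum_eq_single l]
  · simp only [if_true]
    rw [hF m hm l (Set.mem_univ l)]
    exact hl
  · intro j _ hj
    refine Finset.sum_eq_zero fun i _ => ?_
    exact if_neg hj
  · intro h
    exact absurd (Finset.mem_univ l) h

/-- the curve through `y` with velocity `v` -/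
theorem curve [CharZero k] [Fintype κ] [DecidableEq κ] (F : MvPolynomial (Pc n) k) (d : κ → ℕ)
    (hF : MH Set.univ d F) (l : κ) (hl : d l ≤ 2) (y : Pc n → k) (hy : eval y F = 0)
    (v : Pc n → k) (hv : inl l v) (hLv : Ld F y v = 0) (w : Pc n → k) (hw : inl l w)
    (hLw : Ld F y w ≠ 0) :
    ∃ (num : Pc n → Polynomial k) (den : Polynomial k) (c : k),
      den.eval 0 ≠ 0 ∧ c ≠ 0 ∧ (∀ l, (num l).eval 0 = den.eval 0 * y l) ∧
      (∀ l, (num l).derivative.eval 0 = den.derivative.eval 0 * y l + c * v l) ∧
      ∀ t : k, den.eval t ≠ 0 → (fun l => (num l).eval t / den.eval t) ∈ {y | eval y F = 0} := by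
  have hT : ∀ a : Pc n → k, inl l a →
      eval (fun s => y s + a s) F = Ld F y a + Qd F y a := by
    intro a ha
    rw [taylor y a F (deg_line F d hF l hl y a ha), hy, zero_add]
  by_cases hQ : Qd F y v = 0
  · refine ⟨fun s => Polynomial.C (y s) + Polynomial.X * Polynomial.C (v s), 1, 1, ?_, one_ne_zero,
      ?_, ?_, ?_⟩
    · simp
    · intro s
      simp
    · intro s
      simp
    · intro t _
      show eval _ F = 0
      have h1 : (fun s => (Polynomial.C (y s) + Polynomial.X * Polynomial.C (v s)).eval t /
          (1 : Polynomial k).eval t) = fun s => y s + t * (v s + 0 * w s) := by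
        funext s
        rw [Polynomial.eval_add, Polynomial.eval_C, Polynomial.eval_mul, Polynomial.eval_X,
          Polynomial.eval_C, Polynomial.eval_one]
        ring
      rw [h1, hT _ (fun s hs => by rw [hv s hs, hw s hs]; ring), Ld_add, Qd_add, hLv, hQ]
      ring
  · set b := Ld F y w with hb
    set q0 := Qd F y v with hq0
    set q1 := Md F y v w with hq1
    set q2 := Qd F y w with hq2
    set den : Polynomial k := Polynomial.C q0 + Polynomial.X * Polynomial.C q1 +
      Polynomial.X ^ 2 * Polynomial.C q2 with hden
    have hde : ∀ t : k, den.eval t = q0 + t * q1 + t ^ 2 * q2 := by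
      intro t
      simp only [hden, Polynomial.eval_add, Polynomial.eval_mul, Polynomial.eval_pow,
        Polynomial.eval_C, Polynomial.eval_X]
    refine ⟨fun s => den * Polynomial.C (y s) - Polynomial.X * Polynomial.C b *
      (Polynomial.C (v s) + Polynomial.X * Polynomial.C (w s)), den, -b, ?_, neg_ne_zero.2 hLw,
      ?_, ?_, ?_⟩
    · rw [hde]
      simpa using hQ
    · intro s
      simp
    · intro s
      simp only [Polynomial.derivative_sub, Polynomial.derivative_mul, Polynomial.derivative_C,
        Polynomial.derivative_X, Polynomial.derivative_add, Polynomial.eval_sub,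
        Polynomial.eval_mul, Polynomial.eval_add, Polynomial.eval_C, Polynomial.eval_X,
        Polynomial.eval_one, Polynomial.eval_zero]
      simp only [Polynomial.eval_zero, mul_zero, zero_mul, add_zero, one_mul]
      ring
    · intro t ht
      show eval _ F = 0
      have h1 : (fun s => (den * Polynomial.C (y s) - Polynomial.X * Polynomial.C b *
          (Polynomial.C (v s) + Polynomial.X * Polynomial.C (w s))).eval t / den.eval t) =
          fun s => y s + (-(t * b / den.eval t)) * (v s + t * w s) := by
        funext s
        simp only [Polynomial.eval_sub, Polynomial.eval_mul, Polynomial.eval_add,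
          Polynomial.eval_C, Polynomial.eval_X]
        field_simp
        ring
      rw [h1, hT _ (fun s hs => by rw [hv s hs, hw s hs]; ring), Ld_add, Qd_add, hLv, ← hb,
        ← hq0, ← hq1, ← hq2, ← hde]
      field_simp
      ring

theorem scale_eval [Fintype κ] [DecidableEq κ] (F : MvPolynomial (Pc n) k) (d : κ → ℕ)
    (hF : MH Set.univ d F) (l : κ) (y : Pc n → k) (c : k) :
    eval (fun s => (if s.1 = l then c else 1) * y s) F = c ^ d l * eval y F := by
  classical
  rw [eval_eq', eval_eq', Finset.mul_sum]
  refine Finset.sum_congr rfl fun m hm => ?_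
  have h1 : ∏ s : Pc n, ((if s.1 = l then c else 1) * y s) ^ m s =
      c ^ d l * ∏ s : Pc n, y s ^ m s := by
    simp only [mul_pow]
    rw [Finset.prod_mul_distrib]
    congr 1
    rw [Fintype.prod_sigma, Finset.prod_eq_single l]
    · simp only [if_true]
      rw [Finset.prod_pow_eq_pow_sum, hF m hm l (Set.mem_univ l)]
    · intro j _ hj
      refine Finset.prod_eq_one fun i _ => ?_
      rw [if_neg hj, one_pow]
    · intro h
      exact absurd (Finset.mem_univ l) h
  rw [h1]
  ring

end

theorem ri : S_RI := by
  intro κ _ _ n k _ _ F d hF l hl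
  classical
  constructor
  · intro i j y hy hV
    have hy' : eval y F = 0 := hy
    set v : Pc n → k := valueAt y ((pderiv (⟨l, i⟩ : Pc n) F) • (pderiv ⟨l, j⟩ :
      Derivation k _ (MvPolynomial (Pc n) k)) -
      (pderiv (⟨l, j⟩ : Pc n) F) • (pderiv ⟨l, i⟩ : Derivation k _ (MvPolynomial (Pc n) k)))
      with hvdef
    have hvs : ∀ s, v s = eval y (pderiv ⟨l, i⟩ F) * (if s = ⟨l, j⟩ then 1 else 0) -
        eval y (pderiv ⟨l, j⟩ F) * (if s = ⟨l, i⟩ then 1 else 0) := by
      intro s
      rw [hvdef, valueAt_apply]
      simp only [Derivation.sub_apply, Derivation.smul_apply, smul_eq_mul, map_sub, map_mul,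
        pderiv_X, Pi.single_apply]
      congr 1
      · congr 1
        split_ifs <;> simp
      · congr 1
        split_ifs <;> simp
    have hvin : inl l v := by
      intro s hs
      rw [hvs, if_neg (fun h => hs (by rw [h])), if_neg (fun h => hs (by rw [h]))]
      ring
    have hLv : Ld F y v = 0 := by
      simp only [Ld, hvs, sub_mul]
      rw [Finset.sum_sub_distrib]
      simp only [mul_ite, mul_one, mul_zero, ite_mul, zero_mul]
      rw [Finset.sum_ite_eq' Finset.univ (⟨l, j⟩ : Pc n), Finset.sum_ite_eq' Finset.univ
        (⟨l, i⟩ : Pc n), if_pos (Finset.mem_univ _), if_pos (Finset.mem_univ _)]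
      ring
    have hex : ∃ e : Fin (n l + 1), eval y (pderiv (⟨l, e⟩ : Pc n) F) ≠ 0 := by
      by_contra hcon
      push Not at hcon
      apply hV
      funext s
      show v s = 0
      rw [hvs, hcon i, hcon j]
      ring
    obtain ⟨e, he⟩ := hex
    refine curve F d hF l hl y hy' v hvin hLv (fun s => if s = ⟨l, e⟩ then 1 else 0) ?_ ?_
    · intro s hs
      exact if_neg (fun h => hs (by rw [h]))
    · simp only [Ld, ite_mul, one_mul, zero_mul]
      rw [Finset.sum_ite_eq' Finset.univ (⟨l, e⟩ : Pc n), if_pos (Finset.mem_univ _)]
      exact he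
  · intro y hy hV
    have hy' : eval y F = 0 := hy
    have hval : ∀ s : Pc n, valueAt y (∑ i : Fin (n l + 1), (X (⟨l, i⟩ : Pc n) :
        MvPolynomial (Pc n) k) • (pderiv ⟨l, i⟩ : Derivation k _ (MvPolynomial (Pc n) k))) s =
        if s.1 = l then y s else 0 := by
      intro s
      rw [valueAt_apply]
      have h1 : (∑ i : Fin (n l + 1), (X (⟨l, i⟩ : Pc n) : MvPolynomial (Pc n) k) •
          (pderiv ⟨l, i⟩ : Derivation k _ (MvPolynomial (Pc n) k))) (X s) =
          ∑ i : Fin (n l + 1), X (⟨l, i⟩ : Pc n) * pderiv (⟨l, i⟩ : Pc n) (X s) := by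
        have h2 := congrFun (map_sum (Derivation.coeFnAddMonoidHom (R := k)
          (A := MvPolynomial (Pc n) k) (M := MvPolynomial (Pc n) k))
          (fun i : Fin (n l + 1) => (X (⟨l, i⟩ : Pc n) : MvPolynomial (Pc n) k) •
            (pderiv ⟨l, i⟩ : Derivation k _ (MvPolynomial (Pc n) k))) Finset.univ) (X s)
        rw [Finset.sum_apply] at h2
        exact h2
      rw [h1, map_sum]
      simp only [map_mul, eval_X, pderiv_X, Pi.single_apply]
      obtain ⟨m, r⟩ := s
      by_cases hm : m = l
      · subst hm
        rw [if_pos rfl, Finset.sum_eq_single r]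
        · simp
        · intro i _ hi
          rw [if_neg]
          · simp
          · intro h
            exact hi (by
              have := congrArg (fun t : Pc n => t) h
              simpa using h.symm)
        · intro h
          exact absurd (Finset.mem_univ r) h
      · rw [if_neg hm]
        refine Finset.sum_eq_zero fun i _ => ?_
        rw [if_neg]
        · simp
        · intro h
          exact hm (congrArg Sigma.fst h)
    refine ⟨fun s => Polynomial.C (y s) + Polynomial.X * Polynomial.C (if s.1 = l then y s else 0),
      1, 1, ?_, one_ne_zero, ?_, ?_, ?_⟩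
    · simp
    · intro s
      simp
    · intro s
      rw [hval]
      simp
    · intro t _
      show eval _ F = 0
      have h1 : (fun s : Pc n => (Polynomial.C (y s) + Polynomial.X *
          Polynomial.C (if s.1 = l then y s else 0)).eval t / (1 : Polynomial k).eval t) =
          fun s => (if s.1 = l then 1 + t else 1) * y s := by
        funext s
        by_cases h : s.1 = l
        · simp only [h, if_true, Polynomial.eval_add, Polynomial.eval_C, Polynomial.eval_mul,
            Polynomial.eval_X, Polynomial.eval_one, div_one]
          ring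
        · simp [h]
      rw [h1, scale_eval F d hF l y, hy', mul_zero]

end Pool.Agent.Q153.ST
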